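import Pool.Agent.H101.HB.Stm

/-! `S_MV` (helper120 for helper101). -/

set_option autoImplicit false

open Complex MeasureTheory Filter Topology Set

namespace Pool.Agent.H120.HB

open Pool.Agent.Y763.HB Pool.Agent.H101.HB

lemma ph_cont (P : Polynomial ℝ) : Continuous (ph P) := by
  unfold ph
  exact (P.continuous.comp (by fun_prop)).mul (by fun_prop)

lemma ph_integrable (P : Polynomial ℝ) {T : ℝ} (hT : 0 < T) :
    Integrable fun y : ℝ => ph P (y / T) := by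
  obtain ⟨B, hB⟩ := (isCompact_Icc (a := (0 : ℝ)) (b := 1)).exists_bound_of_continuousOn
    (f := fun u => P.eval u) P.continuous.continuousOn
  have h1 : Integrable fun y : ℝ => B * Real.exp (-(1 / T ^ 2) * y ^ 2) :=
    (integrable_exp_neg_mul_sq (by positivity)).const_mul B
  refine h1.mono' ((ph_cont P).comp (by fun_prop)).aestronglyMeasurable
    (Eventually.of_forall fun y => ?_)
  unfold ph
  rw [norm_mul, Real.norm_of_nonneg (Real.exp_pos _).le]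
  have e : -(1 / T ^ 2) * y ^ 2 = -(y / T) ^ 2 := by
    rw [div_pow]
    ring
  rw [e]
  refine mul_le_mul_of_nonneg_right (hB _ ⟨(Real.exp_pos _).le, ?_⟩) (Real.exp_pos _).le
  rw [Real.exp_le_one_iff]
  have := sq_nonneg (y / T)
  linarith

/-- the coefficient -/
noncomputable def cf (δ : ℝ) (m n : ℕ) : ℝ :=
  mu m * mu n * ((m : ℝ) ^ (-(1 / 2 + δ)) * (n : ℝ) ^ (-(1 / 2 + δ)))

lemma mu_le (n : ℕ) : |mu n| ≤ 1 := by
  unfold mu
  have h := ArithmeticFunction.abs_moebius_le_one (n := n)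
  rw [← Int.cast_abs]
  exact_mod_cast h

lemma rp_le {δ : ℝ} (hδ : 0 < δ) {m : ℕ} (hm : 1 ≤ m) : |(m : ℝ) ^ (-(1 / 2 + δ))| ≤ 1 := by
  have hm1 : (1 : ℝ) ≤ m := by exact_mod_cast hm
  rw [abs_of_nonneg (Real.rpow_nonneg (by linarith) _)]
  exact Real.rpow_le_one_of_one_le_of_nonpos hm1 (by linarith)

lemma cf_le {δ : ℝ} (hδ : 0 < δ) {m n : ℕ} (hm : 1 ≤ m) (hn : 1 ≤ n) : |cf δ m n| ≤ 1 := by
  unfold cf
  rw [abs_mul, abs_mul, abs_mul]
  have h1 := mu_le m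
  have h2 := mu_le n
  have h3 := rp_le hδ hm
  have h4 := rp_le hδ hn
  have h5 : |mu m| * |mu n| ≤ 1 := mul_le_one₀ h1 (abs_nonneg _) h2
  have h6 : |(m : ℝ) ^ (-(1 / 2 + δ))| * |(n : ℝ) ^ (-(1 / 2 + δ))| ≤ 1 :=
    mul_le_one₀ h3 (abs_nonneg _) h4
  exact mul_le_one₀ h5 (by positivity) h6

lemma pw (δ t : ℝ) {m : ℕ} (hm : 1 ≤ m) : (m : ℂ) ^ (-(ln δ t)) =
    (((m : ℝ) ^ (-(1 / 2 + δ)) : ℝ) : ℂ) * cexp (-(I * ((t * Real.log m : ℝ) : ℂ))) := by
  have hm0 : (0 : ℝ) < m := by exact_mod_cast hm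
  have h1 : (m : ℂ) = ((m : ℝ) : ℂ) := by simp
  rw [h1, Complex.cpow_def_of_ne_zero (by exact_mod_cast hm0.ne'), ← Complex.ofReal_log hm0.le,
    Real.rpow_def_of_pos hm0, Complex.ofReal_exp, ← Complex.exp_add]
  congr 1
  unfold ln
  push_cast
  ring

lemma prod_eq (δ t : ℝ) {m n : ℕ} (hm : 1 ≤ m) (hn : 1 ≤ n) :
    ((mu m : ℂ) * (m : ℂ) ^ (-(ln δ t))) * (starRingEnd ℂ) ((mu n : ℂ) * (n : ℂ) ^ (-(ln δ t))) =
      (cf δ m n : ℂ) * cexp (I * ((t * Real.log ((n : ℝ) / m) : ℝ) : ℂ)) := by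
  have hm0 : (m : ℝ) ≠ 0 := by
    have : m ≠ 0 := by omega
    exact_mod_cast this
  have hn0 : (n : ℝ) ≠ 0 := by
    have : n ≠ 0 := by omega
    exact_mod_cast this
  rw [pw δ t hm, pw δ t hn, Real.log_div hn0 hm0]
  simp only [map_mul, Complex.conj_ofReal, ← Complex.exp_conj, map_neg, Complex.conj_I]
  have e : cexp (I * ((t * (Real.log n - Real.log m) : ℝ) : ℂ)) =
      cexp (-(I * ((t * Real.log m : ℝ) : ℂ))) * cexp (-(-I * ((t * Real.log n : ℝ) : ℂ))) := by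
    rw [← Complex.exp_add]
    congr 1
    push_cast
    ring
  rw [e]
  unfold cf
  push_cast
  ring

lemma normSq_A (N : ℕ) (δ t : ℝ) : ((‖A N (ln δ t)‖ ^ 2 : ℝ) : ℂ) =
    ∑ m ∈ Finset.Icc 1 N, ∑ n ∈ Finset.Icc 1 N, (cf δ m n : ℂ) *
      cexp (I * ((t * Real.log ((n : ℝ) / m) : ℝ) : ℂ)) := by
  rw [← Complex.normSq_eq_norm_sq, ← Complex.mul_conj]
  unfold A
  rw [map_sum, Finset.sum_mul_sum]
  refine Finset.sum_congr rfl fun m hm => Finset.sum_congr rfl fun n hn => ?_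
  exact prod_eq δ t (Finset.mem_Icc.1 hm).1 (Finset.mem_Icc.1 hn).1

theorem t_MV : S_MV := by
  intro hFT hOFF P ε hε hε1
  obtain ⟨C, J, hC, hJ, hft⟩ := hFT P
  have hlim : Tendsto (fun T : ℝ => C * T ^ (-(2 * ε))) atTop (𝓝 0) := by
    have := (tendsto_rpow_neg_atTop (show 0 < 2 * ε by linarith)).const_mul C
    rw [mul_zero] at this
    exact this
  filter_upwards [hOFF J ε (by linarith) hε hε1, eventually_ge_atTop (1 : ℝ),
    hlim.eventually_le_const one_pos] with T hoff hT hCT N hN δ hδ _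
  have hT0 : 0 < T := by linarith
  obtain ⟨h0, hw⟩ := hft T hT0
  have hph := ph_integrable P hT0
  -- the integrals
  obtain ⟨K, hK⟩ : ∃ K : ℝ → ℂ, K = fun w => ∫ y : ℝ, cexp (I * ((y * w : ℝ) : ℂ)) *
      ((ph P (y / T) : ℝ) : ℂ) := ⟨_, rfl⟩
  have hKi : ∀ w : ℝ, Integrable fun y : ℝ => cexp (I * ((y * w : ℝ) : ℂ)) *
      ((ph P (y / T) : ℝ) : ℂ) := by
    intro w
    refine hph.norm.mono' ?_ (Eventually.of_forall fun y => ?_)
    · apply Continuous.aestronglyMeasurable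
      have := ph_cont P
      fun_prop
    · rw [norm_mul, mul_comm I, Complex.norm_exp_ofReal_mul_I, one_mul, Complex.norm_real]
  have hK0 : K 0 = ((T * ∫ x : ℝ, ph P x : ℝ) : ℂ) := by
    rw [← h0, hK]
    simp
  have hKw : ∀ m n : ℕ, 1 ≤ m → n ∈ Finset.Icc 1 N → m ≠ n →
      ‖K (Real.log ((n : ℝ) / m))‖ ≤ C / T ^ 2 := by
    intro m n hm hn hmn
    have h1 := hw (Real.log ((n : ℝ) / m))
    have h2 := hoff N hN n hn m hm hmn
    have h3 : (1 : ℝ) / (T ^ 2 * (m : ℝ) ^ 2) ≤ 1 / T ^ 2 := by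
      have hm1 : (1 : ℝ) ≤ m := by exact_mod_cast hm
      apply one_div_le_one_div_of_le (by positivity)
      have : 1 ≤ (m : ℝ) ^ 2 := one_le_pow₀ hm1
      have h4 : 0 < T ^ 2 := by positivity
      nlinarith
    rw [hK]
    refine h1.trans ?_
    calc C * T * Real.exp (-(T ^ 2 * Real.log ((n : ℝ) / m) ^ 2 / (4 * J)))
        = C * (T * Real.exp (-(T ^ 2 * Real.log ((n : ℝ) / m) ^ 2 / (4 * J)))) := by ring
      _ ≤ C * (1 / T ^ 2) := mul_le_mul_of_nonneg_left (h2.trans h3) hC.le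
      _ = C / T ^ 2 := by ring
  -- the expansion
  have hmain : (((∫ t : ℝ, ‖A N (ln δ t)‖ ^ 2 * ph P (t / T)) : ℝ) : ℂ) =
      ∑ m ∈ Finset.Icc 1 N, ∑ n ∈ Finset.Icc 1 N, (cf δ m n : ℂ) *
        K (Real.log ((n : ℝ) / m)) := by
    rw [← integral_complex_ofReal]
    have e : ∀ t : ℝ, ((‖A N (ln δ t)‖ ^ 2 * ph P (t / T) : ℝ) : ℂ) =
        ∑ m ∈ Finset.Icc 1 N, ∑ n ∈ Finset.Icc 1 N, (cf δ m n : ℂ) *
          (cexp (I * ((t * Real.log ((n : ℝ) / m) : ℝ) : ℂ)) * ((ph P (t / T) : ℝ) : ℂ)) := by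
      intro t
      rw [Complex.ofReal_mul, normSq_A, Finset.sum_mul]
      refine Finset.sum_congr rfl fun m _ => ?_
      rw [Finset.sum_mul]
      refine Finset.sum_congr rfl fun n _ => ?_
      ring
    simp_rw [e]
    rw [integral_finsetSum _ fun m _ => integrable_finsetSum _ fun n _ => (hKi _).const_mul _]
    refine Finset.sum_congr rfl fun m _ => ?_
    rw [integral_finsetSum _ fun n _ => (hKi _).const_mul _]
    refine Finset.sum_congr rfl fun n _ => ?_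
    rw [integral_const_mul, hK]
  have hdiag : ((T * (∫ x : ℝ, ph P x) * Sd N δ : ℝ) : ℂ) =
      ∑ m ∈ Finset.Icc 1 N, ∑ n ∈ Finset.Icc 1 N, (if n = m then (cf δ m m : ℂ) * K 0 else 0) := by
    have e : ∀ m ∈ Finset.Icc 1 N, ∑ n ∈ Finset.Icc 1 N,
        (if n = m then (cf δ m m : ℂ) * K 0 else 0) = (cf δ m m : ℂ) * K 0 := by
      intro m hm
      rw [Finset.sum_ite_eq' (Finset.Icc 1 N) m, if_pos hm]
    rw [Finset.sum_congr rfl e, ← Finset.sum_mul, hK0, Complex.ofReal_mul, mul_comm]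
    congr 1
    unfold Sd
    rw [Complex.ofReal_sum]
    refine Finset.sum_congr rfl fun m hm => ?_
    congr 1
    unfold cf
    have hm0 : (0 : ℝ) < m := by exact_mod_cast (Finset.mem_Icc.1 hm).1
    rw [← Real.rpow_add hm0, sq]
    congr 2
    ring
  have hfin : ‖(((∫ t : ℝ, ‖A N (ln δ t)‖ ^ 2 * ph P (t / T)) : ℝ) : ℂ) -
      ((T * (∫ x : ℝ, ph P x) * Sd N δ : ℝ) : ℂ)‖ ≤ (N : ℝ) * (N * (C / T ^ 2)) := by
    rw [hmain, hdiag, ← Finset.sum_sub_distrib]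
    have hc : (N : ℝ) * (N * (C / T ^ 2)) = ∑ m ∈ Finset.Icc 1 N, (N * (C / T ^ 2)) := by
      rw [Finset.sum_const, Nat.card_Icc, Nat.add_sub_cancel, nsmul_eq_mul]
    rw [hc]
    refine norm_sum_le_of_le _ fun m hm => ?_
    rw [← Finset.sum_sub_distrib]
    have hc2 : (N : ℝ) * (C / T ^ 2) = ∑ n ∈ Finset.Icc 1 N, (C / T ^ 2) := by
      rw [Finset.sum_const, Nat.card_Icc, Nat.add_sub_cancel, nsmul_eq_mul]
    rw [hc2]
    refine norm_sum_le_of_le _ fun n hn => ?_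
    have hm1 := (Finset.mem_Icc.1 hm).1
    have hn1 := (Finset.mem_Icc.1 hn).1
    by_cases h : n = m
    · subst h
      have hm0 : (n : ℝ) ≠ 0 := by
        have : n ≠ 0 := by omega
        exact_mod_cast this
      rw [if_pos rfl, div_self hm0, Real.log_one, sub_self, norm_zero]
      positivity
    · rw [if_neg h, sub_zero, norm_mul, Complex.norm_real, Real.norm_eq_abs]
      have h1 := cf_le hδ hm1 hn1
      have h2 := hKw m n hm1 hn (fun h' => h h'.symm)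
      calc |cf δ m n| * ‖K (Real.log ((n : ℝ) / m))‖ ≤ 1 * (C / T ^ 2) :=
            mul_le_mul h1 h2 (norm_nonneg _) zero_le_one
        _ = C / T ^ 2 := one_mul _
  rw [← Complex.ofReal_sub, Complex.norm_real, Real.norm_eq_abs] at hfin
  refine hfin.trans (le_trans ?_ hCT)
  have hN0 : (0 : ℝ) ≤ N := Nat.cast_nonneg N
  have h1 : (N : ℝ) * N ≤ T ^ (1 - ε) * T ^ (1 - ε) := mul_le_mul hN hN hN0 (by positivity)
  have h2 : T ^ (1 - ε) * T ^ (1 - ε) = T ^ 2 * T ^ (-(2 * ε)) := by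
    rw [← Real.rpow_add hT0, ← Real.rpow_natCast T 2, ← Real.rpow_add hT0]
    congr 1
    push_cast
    ring
  calc (N : ℝ) * (N * (C / T ^ 2)) = C / T ^ 2 * (N * N) := by ring
    _ ≤ C / T ^ 2 * (T ^ (1 - ε) * T ^ (1 - ε)) := mul_le_mul_of_nonneg_left h1 (by positivity)
    _ = C * T ^ (-(2 * ε)) := by
        rw [h2]
        field_simp

end Pool.Agent.H120.HB
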